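import Pool.Agent.helper24.SK.SpecE

/-! # sk:ENW -/

set_option autoImplicit false

namespace Pool.Agent.SK

open Finset ArithmeticFunction MeasureTheory
open Pool.Agent.CH (nit DPb Win Tset ph rgh)
open Pool.Agent.EC (tri vN fN XN TL AdT yN UN edg)
open Pool.Agent.helper85.BVP (tau)
open GD (ks)

private theorem ENW_rf_zero (C N : ℕ) (f : ℕ → ℂ) (n : ℕ) (h : UN C N < n) : rf C N f n = 0 := by
  unfold rf
  rw [if_neg]
  intro h'
  exact absurd h'.2 (by omega)

private theorem ENW_rf_norm (C N : ℕ) (f : ℕ → ℂ) (K : ℝ) (hK : 0 ≤ K)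
    (hf : ∀ n, n ≤ UN C N → ‖f n‖ ≤ K) (n : ℕ) : ‖rf C N f n‖ ≤ K := by
  unfold rf
  split_ifs with h
  · exact hf n h.2
  · rw [norm_zero]
    exact hK

private theorem ENW_mul_norm {q : ℕ} (χ : DirichletCharacter ℂ q) (z : ℂ) (n : ℕ) (K : ℝ) (hK : 0 ≤ K)
    (hz : ‖z‖ ≤ K) : ‖z * χ n‖ ≤ K := by
  rw [norm_mul]
  have h1 := DirichletCharacter.norm_le_one χ (n : ZMod q)
  calc ‖z‖ * ‖χ n‖ ≤ K * 1 := mul_le_mul hz h1 (norm_nonneg _) hK
    _ = K := mul_one K

/-- **ENW** -/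
theorem ENW (h1 : ETR_stmt) (h2 : SLR_stmt) (h3 : E3_stmt) (h4 : G0B_stmt) : ENW_stmt := by
  classical
  intro A Bq C
  obtain ⟨A₁, hE⟩ := h3 A C 2
  obtain ⟨B₁, N₁, hS⟩ := h2 A₁ Bq C
  obtain ⟨B₀, hE⟩ := hE B₁
  refine ⟨B₀, fun B hB => ?_⟩
  obtain ⟨N₂, hE⟩ := hE B hB
  obtain ⟨N₃, hG⟩ := h4 B
  have hlim : Filter.Tendsto (fun N : ℕ => Real.log (N : ℝ)) Filter.atTop Filter.atTop :=
    Real.tendsto_log_atTop.comp tendsto_natCast_atTop_atTop
  obtain ⟨N₄, hN₄⟩ := Filter.eventually_atTop.1 (hlim.eventually_ge_atTop ((C : ℝ) + 2))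
  refine ⟨max 3 (max N₁ (max N₂ (max N₃ N₄))), ?_⟩
  intro N hN v hv q hq hqL χ
  simp only [max_le_iff] at hN
  obtain ⟨hN3, hN1, hN2, hN3', hN4⟩ := hN
  have hL : (C : ℝ) + 2 ≤ Real.log N := hN₄ N hN4
  have hC0 : (0 : ℝ) ≤ C := Nat.cast_nonneg C
  have hL1 : 1 ≤ Real.log N := by linarith
  have hNpos : (0 : ℝ) < N := by
    have : 0 < N := by omega
    exact_mod_cast this
  have hL2 : 1 ≤ Real.log (N : ℝ) ^ 2 := one_le_pow₀ hL1
  have hL20 : 0 ≤ Real.log (N : ℝ) ^ 2 := by positivity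
  -- vanishing beyond
  have hvan : ∀ j : ℕ, 64 * N ^ 3 < j → χ j * gj B N v j = 0 := by
    intro j hj
    have hjr : 64 * (N : ℝ) ^ 3 < (j : ℝ) := by exact_mod_cast hj
    have hlog : Real.log 64 + 3 * Real.log N < Real.log j := by
      have h5 : Real.log (64 * (N : ℝ) ^ 3) < Real.log j := Real.log_lt_log (by positivity) hjr
      rwa [Real.log_mul (by norm_num) (by positivity), Real.log_pow, Nat.cast_ofNat] at h5
    have h64 : (2 : ℝ) ≤ Real.log 64 := by
      have h6 : Real.log 64 = 6 * Real.log 2 := by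
        rw [show (64 : ℝ) = 2 ^ 6 by norm_num, Real.log_pow]
        norm_num
      have h7 := Real.log_two_gt_d9
      rw [h6]
      linarith
    have h8 := abs_le.1 hv
    have h9 : 1 / Real.log N ^ B ≤ |Real.log j - v| := by
      have h10 : 1 / Real.log N ^ B ≤ 1 := by
        rw [div_le_one (by positivity)]
        exact one_le_pow₀ hL1
      have h11 : Real.log j - v ≤ |Real.log j - v| := le_abs_self _
      linarith [h8.2]
    have h12 := (hG N hN3' v).2.1 (Real.log j) h9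
    unfold gj
    rw [h12, Complex.ofReal_zero, mul_zero]
  have e1 : ∑ j ∈ Ioc 0 (64 * N ^ 3), ((edg C N j : ℝ) : ℂ) * χ j * gj B N v j =
      ∑ j ∈ Ioc 0 (64 * N ^ 3), ((edg C N j : ℝ) : ℂ) * (χ j * gj B N v j) :=
    sum_congr rfl fun j _ => by ring
  have e2 := h1 C N (fun j => χ j * gj B N v j) hvan
  rw [e1, e2, norm_neg]
  have e3 : ∑ x ∈ Ioc 0 (UN C N), ∑ y ∈ Ioc 0 (UN C N), ∑ z ∈ Ioc 0 (UN C N),
      rf C N (fun n => ((moebius n : ℤ) : ℂ)) x * rf C N (fun n => (vonMangoldt n : ℂ)) y *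
        rf C N (fun _ => 1) z * (χ ((x * y * z : ℕ) : ZMod q) * gj B N v (x * y * z)) =
      ∑ x ∈ Ioc 0 (UN C N), ∑ y ∈ Ioc 0 (UN C N), ∑ z ∈ Ioc 0 (UN C N),
      (rf C N (fun n => ((moebius n : ℤ) : ℂ)) x * χ x) *
        (rf C N (fun n => (vonMangoldt n : ℂ)) y * χ y) *
        (rf C N (fun _ => 1) z * χ z) * gj B N v (x * y * z) := by
    refine sum_congr rfl fun x _ => sum_congr rfl fun y _ => sum_congr rfl fun z _ => ?_
    rw [Nat.cast_mul, Nat.cast_mul, map_mul, map_mul]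
    ring
  rw [e3]
  refine hE N hN2 v hv (fun n => rf C N (fun n => ((moebius n : ℤ) : ℂ)) n * χ n)
    (fun n => rf C N (fun n => (vonMangoldt n : ℂ)) n * χ n) (fun n => rf C N (fun _ => 1) n * χ n)
    ?_ ?_ ?_
  · intro n
    refine ⟨?_, ?_, ?_⟩
    · refine ENW_mul_norm χ _ n _ hL20 (ENW_rf_norm C N _ _ hL20 ?_ n)
      intro m _
      refine le_trans ?_ hL2
      rw [Complex.norm_intCast]
      exact_mod_cast abs_moebius_le_one
    · refine ENW_mul_norm χ _ n _ hL20 (ENW_rf_norm C N _ _ hL20 ?_ n)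
      intro m hm
      rw [Complex.norm_real, Real.norm_of_nonneg vonMangoldt_nonneg]
      refine vonMangoldt_le_log.trans ?_
      rcases Nat.eq_zero_or_pos m with h0 | h0
      · rw [h0, Nat.cast_zero, Real.log_zero]
        exact hL20
      · have h13 : (m : ℝ) ≤ (N : ℝ) * Real.log N ^ C := by
          refine le_trans (Nat.cast_le.2 hm) ?_
          unfold UN
          exact Nat.floor_le (by positivity)
        have h14 : Real.log m ≤ Real.log N + C * Real.log (Real.log N) := by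
          have h15 := Real.log_le_log (by exact_mod_cast h0) h13
          rwa [Real.log_mul hNpos.ne' (by positivity), Real.log_pow] at h15
        have h16 : Real.log (Real.log N) ≤ Real.log N := by
          have := Real.log_le_sub_one_of_pos (by linarith : (0 : ℝ) < Real.log N)
          linarith
        have h17 : (C : ℝ) * Real.log (Real.log N) ≤ C * Real.log N :=
          mul_le_mul_of_nonneg_left h16 hC0
        nlinarith
    · refine ENW_mul_norm χ _ n _ hL20 (ENW_rf_norm C N _ _ hL20 ?_ n)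
      intro m _
      rw [norm_one]
      exact hL2
  · intro n hn
    have h18 : UN C N < n := by
      unfold UN
      rw [Nat.floor_lt (by positivity)]
      exact hn
    refine ⟨?_, ?_, ?_⟩ <;> rw [ENW_rf_zero C N _ n h18, zero_mul]
  · intro M hM1 hM2 t ht
    exact hS N hN1 q hq hqL χ M hM1 hM2 t ht

end Pool.Agent.SK
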